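import Mathlib

/-!
Escape estimates for `z ↦ z^n + s²/z^n + c - 2 s`.
-/

set_option autoImplicit false

open Set Complex

namespace Pool.Agent.KS6_23.MM

/-- the map -/
noncomputable def ff (n : ℕ) (s c z : ℂ) : ℂ := z ^ n + s ^ 2 / z ^ n + (c - 2 * s)

lemma escape {f : ℂ → ℂ} {P : ℂ → Prop} (h1 : ∀ z, P z → 1 ≤ ‖z‖)
    (h2 : ∀ z, P z → P (f z) ∧ 2 * ‖z‖ ≤ ‖f z‖) {v : ℂ} {j : ℕ} (hv : P (f^[j] v)) :
    ¬ Bornology.IsBounded (range fun i => f^[i] v) := by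
  have h3 : ∀ i, P (f^[i + j] v) ∧ (2:ℝ) ^ i ≤ ‖f^[i + j] v‖ := by
    intro i
    induction i with
    | zero => simpa using ⟨hv, h1 _ hv⟩
    | succ i ih =>
      have e : f^[i + 1 + j] v = f (f^[i + j] v) := by
        rw [show i + 1 + j = (i + j) + 1 by ring, Function.iterate_succ_apply']
      rw [e]
      have h4 := h2 _ ih.1
      refine ⟨h4.1, ?_⟩
      rw [pow_succ]
      linarith [ih.2, h4.2]
  intro hb
  obtain ⟨R, hR⟩ := hb.exists_norm_le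
  obtain ⟨N, hN⟩ := pow_unbounded_of_one_lt R (one_lt_two : (1:ℝ) < 2)
  have h4 : ‖f^[N + j] v‖ ≤ R := hR _ (mem_range_self (N + j))
  have h5 := (h3 N).2
  linarith

/-- large `s` -/
lemma escape_large {n : ℕ} (hn : 3 ≤ n) {s c : ℂ} (hs : 2 ≤ ‖s‖) (hc : ‖c‖ ≤ ‖s‖) :
    ¬ Bornology.IsBounded (range fun i => (ff n s c)^[i] (c - 4 * s)) := by
  have hv : 3 * ‖s‖ ≤ ‖c - 4 * s‖ := by
    have h1 : ‖4 * s‖ - ‖c‖ ≤ ‖4 * s - c‖ := norm_sub_norm_le _ _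
    rw [norm_sub_rev, norm_mul] at h1
    have h2 : ‖(4:ℂ)‖ = 4 := by simp
    rw [h2] at h1
    linarith
  refine escape (P := fun z => 3 * ‖s‖ ≤ ‖z‖) (j := 0) ?_ ?_ ?_
  · intro z hz
    linarith
  · intro z hz
    set x : ℝ := ‖z‖ with hx
    have hx6 : 6 ≤ x := by linarith
    have hpow : 36 * x ≤ x ^ n := by
      have h1 : x ^ 3 ≤ x ^ n := pow_le_pow_right₀ (by linarith) hn
      nlinarith [mul_nonneg (mul_nonneg (by linarith : (0:ℝ) ≤ x - 6) (by linarith : (0:ℝ) ≤ x)) (by linarith : (0:ℝ) ≤ x + 6)]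
    have hxn : x ^ 2 ≤ x ^ n := pow_le_pow_right₀ (by linarith) (by omega)
    have h2 : ‖s ^ 2 / z ^ n‖ ≤ 1 := by
      rw [norm_div, norm_pow, norm_pow, ← hx, div_le_one (by positivity)]
      have : ‖s‖ ^ 2 ≤ x ^ 2 := pow_le_pow_left₀ (norm_nonneg _) (by linarith) 2
      linarith
    have h3 : ‖c - 2 * s‖ ≤ x := by
      have := norm_sub_le c (2 * s)
      rw [norm_mul] at this
      have h2 : ‖(2:ℂ)‖ = 2 := by simp
      rw [h2] at this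
      linarith
    have h4 : ‖z ^ n‖ - ‖s ^ 2 / z ^ n + (c - 2 * s)‖ ≤ ‖ff n s c z‖ := by
      have e : ff n s c z = z ^ n - (-(s ^ 2 / z ^ n + (c - 2 * s))) := by
        rw [ff]; ring
      rw [e]
      refine le_trans (le_of_eq ?_) (norm_sub_norm_le _ _)
      rw [norm_neg]
    have h5 : ‖s ^ 2 / z ^ n + (c - 2 * s)‖ ≤ 1 + x := (norm_add_le _ _).trans (by linarith)
    rw [norm_pow, ← hx] at h4
    constructor
    · linarith
    · linarith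
  · simpa using hv

/-- small `s` -/
lemma escape_small {n : ℕ} (hn : 3 ≤ n) {s c v : ℂ} (hs : ‖s‖ ≤ 2) (hc : ‖c‖ ≤ 2) (j : ℕ)
    (hv : 20 ≤ ‖(ff n s c)^[j] v‖ ^ n) :
    ¬ Bornology.IsBounded (range fun i => (ff n s c)^[i] v) := by
  have hge1 : ∀ z : ℂ, 20 ≤ ‖z‖ ^ n → 1 ≤ ‖z‖ := by
    intro z hz
    by_contra h
    push Not at h
    have : ‖z‖ ^ n ≤ 1 := pow_le_one₀ (norm_nonneg _) h.le
    linarith
  refine escape (P := fun z => 20 ≤ ‖z‖ ^ n) (j := j) ?_ ?_ ?_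
  · exact hge1
  · intro z hz
    set x : ℝ := ‖z‖ with hx
    have hx1 : 1 ≤ x := hge1 z hz
    have h2 : ‖s ^ 2 / z ^ n‖ ≤ 1 / 5 := by
      rw [norm_div, norm_pow, norm_pow, ← hx, div_le_iff₀ (by positivity)]
      have : ‖s‖ ^ 2 ≤ 2 ^ 2 := pow_le_pow_left₀ (norm_nonneg _) hs 2
      linarith
    have h3 : ‖c - 2 * s‖ ≤ 6 := by
      have := norm_sub_le c (2 * s)
      rw [norm_mul] at this
      have h2 : ‖(2:ℂ)‖ = 2 := by simp
      rw [h2] at this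
      linarith
    have h4 : ‖z ^ n‖ - ‖s ^ 2 / z ^ n + (c - 2 * s)‖ ≤ ‖ff n s c z‖ := by
      have e : ff n s c z = z ^ n - (-(s ^ 2 / z ^ n + (c - 2 * s))) := by
        rw [ff]; ring
      rw [e]
      refine le_trans (le_of_eq ?_) (norm_sub_norm_le _ _)
      rw [norm_neg]
    have h5 : ‖s ^ 2 / z ^ n + (c - 2 * s)‖ ≤ 1 / 5 + 6 := (norm_add_le _ _).trans (by linarith)
    rw [norm_pow, ← hx] at h4
    have h6 : 2 * x + 31 / 5 ≤ x ^ n := by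
      rcases le_total 3 x with h | h
      · have h1 : x ^ 3 ≤ x ^ n := pow_le_pow_right₀ hx1 hn
        nlinarith [mul_nonneg (by linarith : (0:ℝ) ≤ x - 3) (by linarith : (0:ℝ) ≤ x)]
      · linarith
    have h7 : 2 * x ≤ ‖ff n s c z‖ := by linarith
    refine ⟨?_, h7⟩
    calc (20:ℝ) ≤ x ^ n := hz
      _ ≤ ‖ff n s c z‖ ^ n := pow_le_pow_left₀ (by linarith) (by linarith) n
  · exact hv

/-- consequences of boundedness of the orbit -/
lemma bounds {n : ℕ} (hn : 3 ≤ n) {s c v : ℂ} (hs : ‖s‖ ≤ 2) (hc : ‖c‖ ≤ 2) (hv0 : v ≠ 0)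
    (hb : Bornology.IsBounded (range fun i => (ff n s c)^[i] v)) :
    ‖v‖ ^ n < 20 ∧ ‖s‖ ^ 2 / 29 ≤ ‖v‖ ^ n := by
  have h0 : ∀ j, ‖(ff n s c)^[j] v‖ ^ n < 20 := by
    intro j
    by_contra h
    push Not at h
    exact escape_small hn hs hc j h hb
  have h1 : ‖v‖ ^ n < 20 := by simpa using h0 0
  have h2 : ‖ff n s c v‖ ^ n < 20 := by simpa using h0 1
  have h3 : ‖ff n s c v‖ < 3 := by
    by_contra h
    push Not at h
    have h4 : (3:ℝ) ^ n ≤ ‖ff n s c v‖ ^ n := pow_le_pow_left₀ (by norm_num) h n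
    have h5 : (3:ℝ) ^ 3 ≤ 3 ^ n := pow_le_pow_right₀ (by norm_num) hn
    norm_num at h5
    linarith
  have h4 : ‖c - 2 * s‖ ≤ 6 := by
    have := norm_sub_le c (2 * s)
    rw [norm_mul] at this
    have h2 : ‖(2:ℂ)‖ = 2 := by simp
    rw [h2] at this
    linarith
  have h5 : ‖s ^ 2 / v ^ n‖ ≤ 29 := by
    have e : s ^ 2 / v ^ n = ff n s c v - v ^ n - (c - 2 * s) := by rw [ff]; ring
    rw [e]
    have h6 := norm_sub_le (ff n s c v - v ^ n) (c - 2 * s)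
    have h7 := norm_sub_le (ff n s c v) (v ^ n)
    rw [norm_pow] at h7
    linarith
  refine ⟨h1, ?_⟩
  have hvp : 0 < ‖v‖ ^ n := by positivity
  rw [norm_div, norm_pow, norm_pow, div_le_iff₀ hvp] at h5
  linarith

end Pool.Agent.KS6_23.MM
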