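import Pool.Agent.KS6_23.MM.A

/-!
The bounded parameters are within `O(1/n)` of the cardioid.
-/

set_option autoImplicit false

open Set Complex

namespace Pool.Agent.KS6_23.MM

lemma norm_exp_sub_one {u : ℂ} (hu : ‖u‖ ≤ 1) : ‖exp u - 1‖ ≤ 2 * ‖u‖ := by
  have := Complex.norm_exp_sub_one_le hu
  linarith

/-- the circle `|4 s - 1| = 1` is near -/
lemma near_circle {n : ℕ} (hn : 3 ≤ n) {ℓ : ℂ} (him : |ℓ.im| ≤ Real.pi)
    (hlow : -Real.log n ≤ ℓ.re) (hup : ℓ.re ≤ 2 * Real.log 2)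
    (hv0 : exp (ℓ / (2 * n)) - 4 * exp (ℓ / 2) ≠ 0)
    (hb : Bornology.IsBounded (range fun i =>
      (ff n (exp (ℓ / 2)) (exp (ℓ / (2 * n))))^[i] (exp (ℓ / (2 * n)) - 4 * exp (ℓ / 2)))) :
    |‖4 * exp (ℓ / 2) - 1‖ - 1| ≤ (23 + 2 * |ℓ.re|) / n := by
  set s : ℂ := exp (ℓ / 2) with hs
  set c : ℂ := exp (ℓ / (2 * n)) with hc
  set t : ℝ := ℓ.re with ht
  have hn0 : (3:ℝ) ≤ n := by exact_mod_cast hn
  have hlog2 : Real.log 2 < 0.7 := by linarith [Real.log_two_lt_d9]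
  have hlog2' : 0 < Real.log 2 := Real.log_pos (by norm_num)
  have hsn : ‖s‖ = Real.exp (t / 2) := by
    rw [hs, Complex.norm_exp]
    congr 1
    have : ℓ / 2 = ((1 / 2 : ℝ) : ℂ) * ℓ := by push_cast; ring
    rw [this, Complex.re_ofReal_mul]
    ring
  have hcn : ‖c‖ = Real.exp (t / (2 * n)) := by
    rw [hc, Complex.norm_exp]
    congr 1
    have : ℓ / (2 * n) = ((1 / (2 * n) : ℝ) : ℂ) * ℓ := by push_cast; ring
    rw [this, Complex.re_ofReal_mul]
    ring
  have hs2 : ‖s‖ ≤ 2 := by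
    rw [hsn]
    calc Real.exp (t / 2) ≤ Real.exp (Real.log 2) := Real.exp_le_exp.2 (by linarith)
      _ = 2 := Real.exp_log (by norm_num)
  have hc2 : ‖c‖ ≤ 2 := by
    rw [hcn]
    calc Real.exp (t / (2 * n)) ≤ Real.exp (Real.log 2) := by
          apply Real.exp_le_exp.2
          rw [div_le_iff₀ (by positivity)]
          nlinarith
      _ = 2 := Real.exp_log (by norm_num)
  obtain ⟨h1, h2⟩ := bounds hn hs2 hc2 hv0 hb
  set x : ℝ := ‖c - 4 * s‖ with hx
  have hx0 : 0 ≤ x := norm_nonneg _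
  -- upper bound
  have hA : x ≤ 1 + 19 / n := by
    by_contra h
    push Not at h
    have h3 := one_add_mul_le_pow (a := (19:ℝ) / n) (by
      have : (0:ℝ) ≤ 19 / n := by positivity
      linarith) n
    have h4 : (n:ℝ) * (19 / n) = 19 := by field_simp
    rw [h4] at h3
    have h5 : (1 + (19:ℝ) / n) ^ n ≤ x ^ n := pow_le_pow_left₀ (by positivity) h.le n
    linarith
  -- lower bound
  have hB : 1 - (4 + |t|) / n ≤ x := by
    by_contra h
    push Not at h
    set y : ℝ := (4 + |t|) / n with hy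
    have hy1 : 0 < 1 - y := by linarith
    have h3 : x ^ n < (1 - y) ^ n := pow_lt_pow_left₀ h hx0 (by omega)
    have h4 : (1 - y) ^ n ≤ Real.exp (-(4 + |t|)) := by
      have h5 : 1 - y ≤ Real.exp (-y) := by
        have := Real.add_one_le_exp (-y)
        linarith
      calc (1 - y) ^ n ≤ (Real.exp (-y)) ^ n := pow_le_pow_left₀ hy1.le h5 n
        _ = Real.exp (n * (-y)) := by rw [← Real.exp_nat_mul]
        _ = Real.exp (-(4 + |t|)) := by
            congr 1
            rw [hy]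
            field_simp
    have h6 : Real.exp (-(4 + |t|)) ≤ ‖s‖ ^ 2 / 29 := by
      have h7 : ‖s‖ ^ 2 = Real.exp t := by
        rw [hsn, ← Real.exp_nat_mul]
        congr 1
        push_cast; ring
      rw [h7, le_div_iff₀ (by norm_num)]
      have h8 : (29:ℝ) ≤ Real.exp 4 := by
        have h9 : (2.7:ℝ) ≤ Real.exp 1 := by linarith [Real.exp_one_gt_d9]
        have h10 : Real.exp 4 = (Real.exp 1) ^ 4 := by
          rw [← Real.exp_nat_mul]; norm_num
        rw [h10]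
        calc (29:ℝ) ≤ 2.7 ^ 4 := by norm_num
          _ ≤ _ := pow_le_pow_left₀ (by norm_num) h9 4
      calc Real.exp (-(4 + |t|)) * 29 ≤ Real.exp (-(4 + |t|)) * Real.exp 4 :=
            mul_le_mul_of_nonneg_left h8 (Real.exp_pos _).le
        _ = Real.exp (-|t|) := by rw [← Real.exp_add]; ring_nf
        _ ≤ Real.exp t := Real.exp_le_exp.2 (neg_abs_le t)
    linarith
  -- c is near 1
  have hC : ‖c - 1‖ ≤ (4 + |t|) / n := by
    have hln : ‖ℓ‖ ≤ |t| + 4 := by
      have h3 := Complex.norm_le_abs_re_add_abs_im ℓ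
      have := Real.pi_lt_four
      linarith
    have h4 : ‖ℓ / (2 * n)‖ = ‖ℓ‖ / (2 * n) := by
      rw [norm_div, norm_mul, Complex.norm_natCast]
      simp
    have hln2 : ‖ℓ‖ ≤ 2 * n := by
      have h3 := Complex.norm_le_abs_re_add_abs_im ℓ
      have hpi : Real.pi < 3.15 := Real.pi_lt_d2
      have h5 : |t| ≤ n - 1 ∨ |t| ≤ 1.4 := by
        rcases le_total 0 t with h | h
        · right
          rw [abs_of_nonneg h]; linarith
        · left
          rw [abs_of_nonpos h]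
          have := Real.log_le_sub_one_of_pos (by linarith : (0:ℝ) < n)
          linarith
      rcases h5 with h5 | h5
      · have : (3:ℝ) ≤ n := hn0
        nlinarith
      · linarith
    have h5 : ‖ℓ / (2 * n)‖ ≤ 1 := by
      rw [h4, div_le_one (by positivity)]; exact hln2
    calc ‖c - 1‖ ≤ 2 * ‖ℓ / (2 * n)‖ := norm_exp_sub_one h5
      _ = ‖ℓ‖ / n := by rw [h4]; field_simp
      _ ≤ (4 + |t|) / n := by
          apply div_le_div_of_nonneg_right _ (by positivity)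
          linarith
  have hD : |‖4 * s - 1‖ - x| ≤ ‖c - 1‖ := by
    rw [hx, norm_sub_rev c]
    have := abs_norm_sub_norm_le (4 * s - 1) (4 * s - c)
    have e : 4 * s - 1 - (4 * s - c) = c - 1 := by ring
    rw [e] at this
    exact this
  have hE : |x - 1| ≤ (19 + |t|) / n := by
    rw [abs_le]
    have e1 : (19 + |t|) / (n:ℝ) = 19 / n + |t| / n := by ring
    have e2 : (4 + |t|) / (n:ℝ) = 4 / n + |t| / n := by ring
    have p1 : 0 ≤ |t| / (n:ℝ) := by positivity
    have p2 : (4:ℝ) / n ≤ 19 / n := by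
      apply div_le_div_of_nonneg_right _ (by positivity)
      norm_num
    constructor
    · linarith
    · linarith
  calc |‖4 * s - 1‖ - 1| = |(‖4 * s - 1‖ - x) + (x - 1)| := by ring_nf
    _ ≤ |‖4 * s - 1‖ - x| + |x - 1| := abs_add_le _ _
    _ ≤ (4 + |t|) / n + (19 + |t|) / n := by linarith
    _ = (23 + 2 * |t|) / n := by ring

/-- distance of `s²` from the cardioid `{(1+u)²/16 : |u| = 1}` -/
lemma near_cardioid {n : ℕ} (hn : 3 ≤ n) {ℓ : ℂ} (hlow : -Real.log n ≤ ℓ.re)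
    (hup : ℓ.re ≤ 2 * Real.log 2)
    (hX : |‖4 * exp (ℓ / 2) - 1‖ - 1| ≤ (23 + 2 * |ℓ.re|) / n) :
    ∃ u : ℂ, ‖u‖ = 1 ∧ ‖exp ℓ - (1 + u) ^ 2 / 16‖ < 60 / n := by
  set s : ℂ := exp (ℓ / 2) with hs
  set t : ℝ := ℓ.re with ht
  have hn0 : (3:ℝ) ≤ n := by exact_mod_cast hn
  have hlog2 : Real.log 2 < 0.7 := by linarith [Real.log_two_lt_d9]
  have hsn : ‖s‖ = Real.exp (t / 2) := by
    rw [hs, Complex.norm_exp]
    congr 1
    have : ℓ / 2 = ((1 / 2 : ℝ) : ℂ) * ℓ := by push_cast; ring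
    rw [this, Complex.re_ofReal_mul]
    ring
  have hs2 : ‖s‖ ≤ 2 := by
    rw [hsn]
    calc Real.exp (t / 2) ≤ Real.exp (Real.log 2) := Real.exp_le_exp.2 (by linarith)
      _ = 2 := Real.exp_log (by norm_num)
  have hst : ‖s‖ * |t| ≤ 3 := by
    rcases le_total 0 t with h | h
    · rw [abs_of_nonneg h]
      have := norm_nonneg s
      nlinarith
    · rw [abs_of_nonpos h, hsn]
      have h1 : -t / 2 ≤ Real.exp (-t / 2) := by
        have := Real.add_one_le_exp (-t / 2)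
        linarith
      have h2 : Real.exp (t / 2) * Real.exp (-t / 2) = 1 := by
        rw [← Real.exp_add]; ring_nf; exact Real.exp_zero
      have h3 : 0 < Real.exp (t / 2) := Real.exp_pos _
      nlinarith
  have ht2 : t ^ 2 ≤ 4 * n := by
    rcases le_total 0 t with h | h
    · nlinarith
    · have h1 : -t ≤ 2 * Real.sqrt n := by
        have h2 : Real.log n = 2 * Real.log (Real.sqrt n) := by
          rw [Real.log_sqrt (by linarith)]; ring
        have h3 : Real.log (Real.sqrt n) ≤ Real.sqrt n - 1 :=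
          Real.log_le_sub_one_of_pos (Real.sqrt_pos.2 (by linarith))
        linarith
      have h4 : Real.sqrt n ^ 2 = n := Real.sq_sqrt (by linarith)
      nlinarith
  obtain ⟨u, hu, hu2⟩ : ∃ u : ℂ, ‖u‖ = 1 ∧ ‖4 * s - 1 - u‖ = |‖4 * s - 1‖ - 1| := by
    rcases eq_or_ne (4 * s - 1) 0 with h | h
    · refine ⟨1, by simp, ?_⟩
      rw [h]
      simp
    · have hp : 0 < ‖4 * s - 1‖ := norm_pos_iff.2 h
      refine ⟨(4 * s - 1) / ‖4 * s - 1‖, ?_, ?_⟩
      · rw [norm_div]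
        simp [hp.ne']
      · have e : 4 * s - 1 - (4 * s - 1) / ‖4 * s - 1‖
            = (4 * s - 1) / ‖4 * s - 1‖ * ((‖4 * s - 1‖ - 1 : ℝ) : ℂ) := by
          have : ((‖4 * s - 1‖ : ℝ) : ℂ) ≠ 0 := by exact_mod_cast hp.ne'
          field_simp
          push_cast
          ring
        rw [e, norm_mul, Complex.norm_real, Real.norm_eq_abs, norm_div]
        simp [hp.ne']
  refine ⟨u, hu, ?_⟩
  set X : ℝ := |‖4 * s - 1‖ - 1| with hXd
  have hX0 : 0 ≤ X := abs_nonneg _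
  have e1 : exp ℓ - (1 + u) ^ 2 / 16 = (4 * s - 1 - u) / 4 * (2 * s - (4 * s - 1 - u) / 4) := by
    have : exp ℓ = s ^ 2 := by
      rw [hs, ← Complex.exp_nat_mul]
      congr 1
      push_cast; ring
    rw [this]; ring
  have h1 : ‖exp ℓ - (1 + u) ^ 2 / 16‖ ≤ X / 4 * (2 * ‖s‖ + X / 4) := by
    rw [e1, norm_mul]
    have h2 : ‖(4 * s - 1 - u) / 4‖ = X / 4 := by
      rw [norm_div, hu2]; simp
    have h3 : ‖2 * s - (4 * s - 1 - u) / 4‖ ≤ 2 * ‖s‖ + X / 4 := by
      refine (norm_sub_le _ _).trans ?_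
      rw [h2, norm_mul]
      simp
    rw [h2]
    exact mul_le_mul_of_nonneg_left h3 (by positivity)
  have hn1 : (0:ℝ) < n := by linarith
  have h2 : X * ‖s‖ ≤ 52 / n := by
    calc X * ‖s‖ ≤ (23 + 2 * |t|) / n * ‖s‖ := mul_le_mul_of_nonneg_right hX (norm_nonneg _)
      _ = (23 * ‖s‖ + 2 * (‖s‖ * |t|)) / n := by ring
      _ ≤ 52 / n := by
          apply div_le_div_of_nonneg_right _ hn1.le
          linarith
  have h3 : X ^ 2 ≤ 385 / n := by
    have h4 : X ^ 2 ≤ ((23 + 2 * |t|) / n) ^ 2 := pow_le_pow_left₀ hX0 hX 2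
    have h5 : ((23 + 2 * |t|) / (n:ℝ)) ^ 2 = (23 + 2 * |t|) ^ 2 / n ^ 2 := by rw [div_pow]
    have h6 : (23 + 2 * |t|) ^ 2 ≤ 1058 + 32 * n := by
      have h7 : |t| ^ 2 = t ^ 2 := sq_abs t
      nlinarith [sq_nonneg (23 - 2 * |t|)]
    rw [h5] at h4
    refine h4.trans ?_
    rw [div_le_div_iff₀ (by positivity) hn1]
    have h8 : (1058 + 32 * (n:ℝ)) ≤ 385 * n := by linarith
    nlinarith
  have h4 : X / 4 * (2 * ‖s‖ + X / 4) = X * ‖s‖ / 2 + X ^ 2 / 16 := by ring
  rw [h4] at h1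
  have h5 : (52:ℝ) / n / 2 + 385 / n / 16 < 60 / n := by
    have : (52:ℝ) / n / 2 + 385 / n / 16 = (52 / 2 + 385 / 16) / n := by ring
    rw [this]
    apply div_lt_div_of_pos_right _ hn1
    norm_num
  linarith

end Pool.Agent.KS6_23.MM
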