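import Pool.Agent.KS6_23.MM.B

/-!
Explicit parameters.
-/

set_option autoImplicit false

open Set Complex

namespace Pool.Agent.KS6_23.MM

lemma orbit_fixed {f : ℂ → ℂ} {v w : ℂ} (h1 : f v = w) (h2 : f w = w) (j : ℕ) :
    f^[j] v = v ∨ f^[j] v = w := by
  induction j with
  | zero => left; rfl
  | succ j ih =>
    rw [Function.iterate_succ_apply']
    rcases ih with h | h
    · right; rw [h, h1]
    · right; rw [h, h2]

lemma orbit_good {f : ℂ → ℂ} {v w : ℂ} (h1 : f v = w) (h2 : f w = w) (hv : v ≠ 0) (hw : w ≠ 0) :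
    (∀ j, f^[j] v ≠ 0) ∧ Bornology.IsBounded (range fun j => f^[j] v) := by
  constructor
  · intro j
    rcases orbit_fixed h1 h2 j with h | h
    · rw [h]; exact hv
    · rw [h]; exact hw
  · apply (Set.Finite.isBounded (Set.toFinite {v, w})).subset
    rintro _ ⟨j, rfl⟩
    rcases orbit_fixed h1 h2 j with h | h
    · left; exact h
    · right; exact h

lemma ff_crit {n : ℕ} {s c v : ℂ} (_hs : s ≠ 0) (hv : v ^ n = s) : ff n s c v = c := by
  rw [ff, hv]
  field_simp
  ring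

lemma ff_crit' {n : ℕ} {s c v : ℂ} (_hs : s ≠ 0) (hv : v ^ n = -s) : ff n s c v = c - 4 * s := by
  rw [ff, hv]
  field_simp
  ring

/-- the logarithm of `(1 - e^{iβ})/4` -/
noncomputable def lam (β : ℝ) : ℂ :=
  ((Real.log (Real.sin (β / 2) / 2) : ℝ) : ℂ) + ((β / 2 - Real.pi / 2 : ℝ) : ℂ) * I

lemma exp_lam {β : ℝ} (h0 : 0 < β) (h1 : β < 2 * Real.pi) :
    exp (lam β) = (1 - exp ((β : ℂ) * I)) / 4 := by
  have hs : 0 < Real.sin (β / 2) := Real.sin_pos_of_pos_of_lt_pi (by linarith) (by linarith)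
  rw [lam, Complex.exp_add, ← Complex.ofReal_exp, Real.exp_log (by positivity)]
  have h2 : exp (((β / 2 - Real.pi / 2 : ℝ) : ℂ) * I) = -I * exp (((β / 2 : ℝ) : ℂ) * I) := by
    have : (((β / 2 - Real.pi / 2 : ℝ) : ℂ) * I)
        = ((β / 2 : ℝ) : ℂ) * I + -(Real.pi / 2 * I) := by push_cast; ring
    rw [this, Complex.exp_add, Complex.exp_neg, Complex.exp_pi_div_two_mul_I]
    rw [Complex.inv_I]; ring
  have h3 : exp ((β : ℂ) * I) = exp (((β / 2 : ℝ) : ℂ) * I) ^ 2 := by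
    rw [← Complex.exp_nat_mul]
    congr 1
    push_cast; ring
  have h4 : exp (((β / 2 : ℝ) : ℂ) * I) = (Real.cos (β / 2) : ℂ) + (Real.sin (β / 2) : ℂ) * I := by
    rw [Complex.exp_mul_I, ← Complex.ofReal_cos, ← Complex.ofReal_sin]
  have h5 : ((Real.cos (β / 2) : ℂ)) ^ 2 + ((Real.sin (β / 2) : ℂ)) ^ 2 = 1 := by
    have := Real.cos_sq_add_sin_sq (β / 2)
    exact_mod_cast this
  have h6 : ((Real.sin (β / 2) / 2 : ℝ) : ℂ) = (Real.sin (β / 2) : ℂ) / 2 := by
    rw [Complex.ofReal_div]; norm_num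
  rw [h2, h3, h4, h6]
  set C : ℂ := (Real.cos (β / 2) : ℂ) with hC
  set S : ℂ := (Real.sin (β / 2) : ℂ) with hS
  have hI : I ^ 2 = -1 := Complex.I_sq
  linear_combination (1/4 : ℂ) * h5 + (-(S ^ 2) / 4 ) * hI

/-- the parameters `((1 - ω)/4)^{2n/(n-1)}`, `ω = e^{2πij/n}` -/
noncomputable def ell (n j : ℕ) : ℂ := ((2 * n / (n - 1) : ℝ) : ℂ) * lam (2 * Real.pi * j / n)

lemma ell_im {n j : ℕ} (hn : 3 ≤ n) (hj : 1 ≤ j) (hjn : j + 1 ≤ n) :
    -Real.pi < (ell n j).im ∧ (ell n j).im < Real.pi := by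
  have hn0 : (3:ℝ) ≤ n := by exact_mod_cast hn
  have hj1 : (1:ℝ) ≤ j := by exact_mod_cast hj
  have hj2 : (j:ℝ) + 1 ≤ n := by exact_mod_cast hjn
  have hpi := Real.pi_pos
  have h1 : (ell n j).im = Real.pi * (2 * j - n) / (n - 1) := by
    rw [ell, Complex.im_ofReal_mul, lam]
    have : ((((Real.log (Real.sin (2 * Real.pi * j / n / 2) / 2) : ℝ) : ℂ))
        + ((2 * Real.pi * j / n / 2 - Real.pi / 2 : ℝ) : ℂ) * I).im
        = 2 * Real.pi * j / n / 2 - Real.pi / 2 := by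
      rw [Complex.add_im, Complex.ofReal_im, Complex.im_ofReal_mul, Complex.I_im]
      ring
    rw [this]
    have hn1 : (n:ℝ) - 1 ≠ 0 := by linarith
    have hn2 : (n:ℝ) ≠ 0 := by linarith
    field_simp
  rw [h1]
  have hn1 : (0:ℝ) < n - 1 := by linarith
  constructor
  · rw [lt_div_iff₀ hn1]
    nlinarith
  · rw [div_lt_iff₀ hn1]
    nlinarith

lemma ell_dyn {n j : ℕ} (hn : 3 ≤ n) (hj : 1 ≤ j) (hjn : j + 1 ≤ n) :
    let s := exp (ell n j / 2)
    let c := exp (ell n j / (2 * n))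
    (∀ i, (ff n s c)^[i] (c - 4 * s) ≠ 0) ∧
      Bornology.IsBounded (range fun i => (ff n s c)^[i] (c - 4 * s)) := by
  intro s c
  have hn0 : (3:ℝ) ≤ n := by exact_mod_cast hn
  have hj1 : (1:ℝ) ≤ j := by exact_mod_cast hj
  have hj2 : (j:ℝ) + 1 ≤ n := by exact_mod_cast hjn
  have hpi := Real.pi_pos
  set β : ℝ := 2 * Real.pi * j / n with hβ
  have hβ0 : 0 < β := by positivity
  have hβ1 : β < 2 * Real.pi := by
    rw [hβ, div_lt_iff₀ (by linarith)]
    nlinarith
  have hx := exp_lam hβ0 hβ1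
  set x : ℂ := exp (lam β) with hxd
  have hnC : (n:ℂ) ≠ 0 := by exact_mod_cast (by omega : n ≠ 0)
  have hn1C : (n:ℂ) - 1 ≠ 0 := by
    intro h
    have : (n:ℂ) = ((1:ℕ):ℂ) := by push_cast; linear_combination h
    have : n = 1 := by exact_mod_cast this
    omega
  have hc1 : c = exp (lam β / (n - 1)) := by
    change exp (ell n j / (2 * n)) = _
    congr 1
    rw [ell, ← hβ]
    push_cast
    field_simp
  have hs1 : s = x * c := by
    change exp (ell n j / 2) = _
    rw [hc1, hxd, ← Complex.exp_add]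
    congr 1
    rw [ell, ← hβ]
    push_cast
    field_simp
    ring
  have hcn : c ^ n = s := by
    rw [hc1, ← Complex.exp_nat_mul]
    change _ = exp (ell n j / 2)
    congr 1
    rw [ell, ← hβ]
    push_cast
    field_simp
  have hs0 : s ≠ 0 := Complex.exp_ne_zero _
  have hc0 : c ≠ 0 := Complex.exp_ne_zero _
  have hv : c - 4 * s = c * exp ((β : ℂ) * I) := by
    rw [hs1, hx]; ring
  have hvn : (c - 4 * s) ^ n = s := by
    rw [hv, mul_pow, hcn, ← Complex.exp_nat_mul]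
    have : (n : ℂ) * ((β : ℂ) * I) = (j : ℂ) * (2 * Real.pi * I) := by
      rw [hβ]
      push_cast
      field_simp
    rw [this, Complex.exp_nat_mul_two_pi_mul_I, mul_one]
  apply orbit_good (ff_crit hs0 hvn) (ff_crit hs0 hcn)
  · rw [hv]
    exact mul_ne_zero hc0 (Complex.exp_ne_zero _)
  · exact hc0

lemma exp_sub_one_left {u : ℂ} (hu : u.re ≤ 0) : ‖exp u - 1‖ ≤ 2 * ‖u‖ := by
  rcases le_total ‖u‖ 1 with h | h
  · exact norm_exp_sub_one h
  · have h1 : ‖exp u‖ ≤ 1 := by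
      rw [Complex.norm_exp]
      exact Real.exp_le_one_iff.2 hu
    have h2 := norm_sub_le (exp u) 1
    rw [norm_one] at h2
    linarith

/-- the explicit parameters are `7/n`-dense in the cardioid -/
lemma ell_dense {n : ℕ} (hn : 3 ≤ n) {β : ℝ} (hβ0 : 0 ≤ β) (hβ1 : β ≤ 2 * Real.pi) :
    ∃ j : ℕ, 1 ≤ j ∧ j + 1 ≤ n ∧ ‖(1 - exp ((β : ℂ) * I)) ^ 2 / 16 - exp (ell n j)‖ ≤ 8 / n := by
  have hn0 : (3:ℝ) ≤ n := by exact_mod_cast hn
  have hpi := Real.pi_pos
  have hpi2 : Real.pi < 3.15 := Real.pi_lt_d2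
  obtain ⟨j, hj1, hj2, hj3⟩ : ∃ j : ℕ, 1 ≤ j ∧ j + 1 ≤ n ∧
      |β - 2 * Real.pi * j / n| ≤ 2 * Real.pi / n := by
    set y : ℝ := β * n / (2 * Real.pi) with hy
    have hy0 : 0 ≤ y := by positivity
    have hyn : y ≤ n := by
      rw [hy, div_le_iff₀ (by positivity)]
      nlinarith
    have hβy : β = 2 * Real.pi * y / n := by
      rw [hy]; field_simp
    have key : ∀ j : ℕ, |y - j| ≤ 1 → |β - 2 * Real.pi * j / n| ≤ 2 * Real.pi / n := by
      intro j hj
      have : β - 2 * Real.pi * j / n = 2 * Real.pi / n * (y - j) := by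
        rw [hβy]; ring
      rw [this, abs_mul, abs_of_pos (by positivity)]
      have h2 : 0 < 2 * Real.pi / n := by positivity
      nlinarith
    have hfl := Nat.floor_le hy0
    have hlf := Nat.lt_floor_add_one y
    by_cases h0 : ⌊y⌋₊ = 0
    · refine ⟨1, le_rfl, by omega, key 1 ?_⟩
      rw [h0] at hlf
      push_cast at hlf ⊢
      rw [abs_le]
      constructor <;> linarith
    · by_cases h1 : ⌊y⌋₊ + 1 ≤ n
      · refine ⟨⌊y⌋₊, by omega, h1, key _ ?_⟩
        rw [abs_le]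
        constructor <;> linarith
      · have h2 : (n:ℝ) ≤ y := by
          have h3 : n ≤ ⌊y⌋₊ := by omega
          have h4 : (n:ℝ) ≤ (⌊y⌋₊ : ℝ) := by exact_mod_cast h3
          linarith
        refine ⟨n - 1, by omega, by omega, key _ ?_⟩
        rw [Nat.cast_sub (by omega)]
        push_cast
        rw [abs_le]
        constructor <;> linarith
  refine ⟨j, hj1, hj2, ?_⟩
  have hj1r : (1:ℝ) ≤ j := by exact_mod_cast hj1
  have hj2r : (j:ℝ) + 1 ≤ n := by exact_mod_cast hj2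
  set βj : ℝ := 2 * Real.pi * j / n with hβj
  have hβj0 : 0 < βj := by positivity
  have hβj1 : βj < 2 * Real.pi := by
    rw [hβj, div_lt_iff₀ (by linarith)]
    nlinarith
  have hx := exp_lam hβj0 hβj1
  have hsin : 0 < Real.sin (βj / 2) := Real.sin_pos_of_pos_of_lt_pi (by linarith) (by linarith)
  set ρ : ℝ := Real.sin (βj / 2) / 2 with hρ
  have hρ0 : 0 < ρ := by positivity
  have hρ1 : ρ ≤ 1 / 2 := by
    rw [hρ]; linarith [Real.sin_le_one (βj / 2)]
  have hnx : ‖exp (lam βj)‖ = ρ := by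
    rw [Complex.norm_exp, lam]
    rw [Complex.add_re, Complex.ofReal_re, Complex.re_ofReal_mul, Complex.I_re, mul_zero, add_zero,
      Real.exp_log hρ0]
  -- first difference
  have hA : ‖(1 - exp ((β : ℂ) * I)) ^ 2 / 16 - exp (lam βj) ^ 2‖ ≤ 1.6 / n := by
    rw [hx]
    have e : (1 - exp ((β : ℂ) * I)) ^ 2 / 16 - ((1 - exp ((βj : ℂ) * I)) / 4) ^ 2
        = (exp ((βj : ℂ) * I) - exp ((β : ℂ) * I)) *
          ((1 - exp ((β : ℂ) * I)) + (1 - exp ((βj : ℂ) * I))) / 16 := by ring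
    rw [e, norm_div, norm_mul]
    have h1 : ‖exp ((βj : ℂ) * I) - exp ((β : ℂ) * I)‖ ≤ 2 * Real.pi / n := by
      have h2 : exp ((βj : ℂ) * I) - exp ((β : ℂ) * I)
          = exp ((β : ℂ) * I) * (exp (I * ((βj - β : ℝ) : ℂ)) - 1) := by
        rw [mul_sub, ← Complex.exp_add, mul_one]
        congr 2
        push_cast; ring
      rw [h2, norm_mul, Complex.norm_exp_ofReal_mul_I, one_mul]
      have h3 := Real.norm_exp_I_mul_ofReal_sub_one_le (x := βj - β)
      rw [Real.norm_eq_abs, abs_sub_comm] at h3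
      exact h3.trans hj3
    have h4 : ‖(1 - exp ((β : ℂ) * I)) + (1 - exp ((βj : ℂ) * I))‖ ≤ 4 := by
      refine (norm_add_le _ _).trans ?_
      have h5 : ∀ b : ℝ, ‖1 - exp ((b : ℂ) * I)‖ ≤ 2 := by
        intro b
        have := norm_sub_le 1 (exp ((b : ℂ) * I))
        rw [norm_one, Complex.norm_exp_ofReal_mul_I] at this
        linarith
      linarith [h5 β, h5 βj]
    have h6 : ‖(16:ℂ)‖ = 16 := by simp
    rw [h6]
    calc ‖exp ((βj : ℂ) * I) - exp ((β : ℂ) * I)‖ *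
          ‖(1 - exp ((β : ℂ) * I)) + (1 - exp ((βj : ℂ) * I))‖ / 16
        ≤ (2 * Real.pi / n) * 4 / 16 := by
          apply div_le_div_of_nonneg_right _ (by norm_num)
          exact mul_le_mul h1 h4 (norm_nonneg _) (by positivity)
      _ ≤ 1.6 / n := by
          rw [show 2 * Real.pi / (n:ℝ) * 4 / 16 = (Real.pi / 2) / n by ring]
          apply div_le_div_of_nonneg_right _ (by linarith)
          linarith
  -- second difference
  have hB : ‖exp (lam βj) ^ 2 - exp (ell n j)‖ ≤ 6 / n := by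
    have hn1 : (0:ℝ) < n - 1 := by linarith
    have e : exp (ell n j) = exp (lam βj) ^ 2 * exp (((2 / (n - 1) : ℝ) : ℂ) * lam βj) := by
      rw [← Complex.exp_nat_mul, ← Complex.exp_add, ell, ← hβj]
      congr 1
      have hn1C : (n:ℂ) - 1 ≠ 0 := by
        intro h
        have : (n:ℂ) = ((1:ℕ):ℂ) := by push_cast; linear_combination h
        have : n = 1 := by exact_mod_cast this
        omega
      push_cast
      field_simp
      ring
    have e2 : exp (lam βj) ^ 2 - exp (ell n j)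
        = -(exp (lam βj) ^ 2 * (exp (((2 / (n - 1) : ℝ) : ℂ) * lam βj) - 1)) := by
      rw [e]; ring
    have hre : (lam βj).re = Real.log ρ := by
      rw [lam, Complex.add_re, Complex.ofReal_re, Complex.re_ofReal_mul, Complex.I_re, mul_zero,
        add_zero]
    have him : (lam βj).im = βj / 2 - Real.pi / 2 := by
      rw [lam, Complex.add_im, Complex.ofReal_im, Complex.im_ofReal_mul, Complex.I_im]
      ring
    have hlog0 : Real.log ρ ≤ 0 := Real.log_nonpos hρ0.le (by linarith)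
    have hu : (((2 / (n - 1) : ℝ) : ℂ) * lam βj).re ≤ 0 := by
      rw [Complex.re_ofReal_mul, hre]
      have : 0 < 2 / ((n:ℝ) - 1) := by positivity
      nlinarith
    have h1 := exp_sub_one_left hu
    rw [norm_mul, Complex.norm_real, Real.norm_eq_abs, abs_of_pos (by positivity)] at h1
    have h2 : ‖lam βj‖ ≤ -Real.log ρ + 1.6 := by
      have h3 := Complex.norm_le_abs_re_add_abs_im (lam βj)
      rw [hre, him, abs_of_nonpos hlog0] at h3
      have h4 : |βj / 2 - Real.pi / 2| ≤ 1.6 := by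
        rw [abs_le]
        constructor <;> linarith
      linarith
    have h3 : ρ ^ 2 * (-Real.log ρ + 1.6) ≤ 0.9 := by
      have h4 : -Real.log ρ ≤ ρ⁻¹ - 1 := by
        have := Real.log_le_sub_one_of_pos (inv_pos.2 hρ0)
        rw [Real.log_inv] at this
        exact this
      have h5 : ρ ^ 2 * (ρ⁻¹ - 1 + 1.6) = ρ + 0.6 * ρ ^ 2 := by
        field_simp; ring
      have h6 : ρ ^ 2 * (-Real.log ρ + 1.6) ≤ ρ ^ 2 * (ρ⁻¹ - 1 + 1.6) :=
        mul_le_mul_of_nonneg_left (by linarith) (by positivity)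
      nlinarith
    rw [e2, norm_neg, norm_mul, norm_pow, hnx]
    calc ρ ^ 2 * ‖exp (((2 / (n - 1) : ℝ) : ℂ) * lam βj) - 1‖
        ≤ ρ ^ 2 * (2 * (2 / (n - 1) * (-Real.log ρ + 1.6))) := by
          apply mul_le_mul_of_nonneg_left _ (by positivity)
          refine h1.trans ?_
          apply mul_le_mul_of_nonneg_left _ (by norm_num)
          exact mul_le_mul_of_nonneg_left h2 (by positivity)
      _ = 4 / (n - 1) * (ρ ^ 2 * (-Real.log ρ + 1.6)) := by ring
      _ ≤ 4 / (n - 1) * 0.9 := mul_le_mul_of_nonneg_left h3 (by positivity)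
      _ ≤ 6 / n := by
          rw [div_mul_eq_mul_div, div_le_div_iff₀ hn1 (by linarith)]
          linarith
  have e : (1 - exp ((β : ℂ) * I)) ^ 2 / 16 - exp (ell n j)
      = ((1 - exp ((β : ℂ) * I)) ^ 2 / 16 - exp (lam βj) ^ 2)
        + (exp (lam βj) ^ 2 - exp (ell n j)) := by ring
  rw [e]
  refine (norm_add_le _ _).trans ?_
  have : (8:ℝ) / n = 1.6 / n + 6 / n + 0.4 / n := by ring
  rw [this]
  have h7 : (0:ℝ) ≤ 0.4 / n := by positivity
  linarith

end Pool.Agent.KS6_23.MM
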