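import Pool.Agent.KS6_23.MM.C

/-!
The real parameter `4^{-n/(n-1)}`.
-/

set_option autoImplicit false

open Set Complex

namespace Pool.Agent.KS6_23.MM

/-- logarithm of the real parameter -/
noncomputable def ellr (n : ℕ) : ℝ := -(2 * n / (n - 1) * Real.log 2)

lemma ellr_dyn {n : ℕ} (hn : 3 ≤ n) :
    let s := exp ((ellr n : ℂ) / 2)
    let c := exp ((ellr n : ℂ) / (2 * n))
    (∀ i, (ff n s c)^[i] (c - 4 * s) ≠ 0) ∧
      Bornology.IsBounded (range fun i => (ff n s c)^[i] (c - 4 * s)) := by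
  intro s c
  have hnC : (n:ℂ) ≠ 0 := by exact_mod_cast (by omega : n ≠ 0)
  have hn1C : (n:ℂ) - 1 ≠ 0 := by
    intro h
    have : (n:ℂ) = ((1:ℕ):ℂ) := by push_cast; linear_combination h
    have : n = 1 := by exact_mod_cast this
    omega
  have hs0 : s ≠ 0 := Complex.exp_ne_zero _
  have hc0 : c ≠ 0 := Complex.exp_ne_zero _
  have h2 : exp (-((Real.log 2 : ℝ) : ℂ)) = 1 / 2 := by
    rw [Complex.exp_neg, ← Complex.ofReal_exp, Real.exp_log (by norm_num)]
    norm_num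
  have hs1 : s = c / 2 := by
    have : s = exp (-((Real.log 2 : ℝ) : ℂ)) * c := by
      change exp ((ellr n : ℂ) / 2) = _ * exp ((ellr n : ℂ) / (2 * n))
      rw [← Complex.exp_add]
      congr 1
      rw [ellr]
      push_cast
      field_simp
      ring
    rw [this, h2]; ring
  have hcn : c ^ n = s := by
    change exp ((ellr n : ℂ) / (2 * n)) ^ n = exp ((ellr n : ℂ) / 2)
    rw [← Complex.exp_nat_mul]
    congr 1
    field_simp
  have hv : c - 4 * s = -c := by rw [hs1]; ring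
  rcases Nat.even_or_odd n with he | ho
  · have hvn : (c - 4 * s) ^ n = s := by rw [hv, he.neg_pow, hcn]
    apply orbit_good (ff_crit hs0 hvn) (ff_crit hs0 hcn)
    · rw [hv]; exact neg_ne_zero.2 hc0
    · exact hc0
  · have hvn : (c - 4 * s) ^ n = -s := by rw [hv, ho.neg_pow, hcn]
    have h3 : ff n s c (c - 4 * s) = c - 4 * s := ff_crit' hs0 hvn
    apply orbit_good h3 h3
    · rw [hv]; exact neg_ne_zero.2 hc0
    · rw [hv]; exact neg_ne_zero.2 hc0

/-- distance of a real point near `1/4` from the cardioid -/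
lemma real_dist {a : ℝ} (ha : 1 / 8 ≤ a) (θ : ℝ) :
    1 / 4 - a ≤ ‖(a : ℂ) - (1 + exp ((θ : ℂ) * I)) ^ 2 / 16‖ := by
  set x : ℝ := Real.cos θ with hx
  have hx1 : x ≤ 1 := Real.cos_le_one θ
  have hx0 : -1 ≤ x := Real.neg_one_le_cos θ
  have hsc : Real.sin θ ^ 2 = 1 - x ^ 2 := by
    have := Real.sin_sq_add_cos_sq θ
    rw [← hx] at this; linarith
  have h1 : exp ((θ : ℂ) * I) = (x : ℂ) + (Real.sin θ : ℂ) * I := by
    rw [Complex.exp_mul_I, ← Complex.ofReal_cos, ← Complex.ofReal_sin]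
  have h2 : ‖(a : ℂ) - (1 + exp ((θ : ℂ) * I)) ^ 2 / 16‖ ^ 2
      = (1 + x) ^ 2 / 64 * 1 - (1 + x) * x * a / 4 + a ^ 2 := by
    rw [Complex.sq_norm, Complex.normSq_apply, h1]
    set y : ℝ := Real.sin θ with hy
    have e : (a : ℂ) - (1 + ((x : ℂ) + (y : ℂ) * I)) ^ 2 / 16
        = ((a - ((1 + x) ^ 2 - y ^ 2) / 16 : ℝ) : ℂ) + ((-(2 * (1 + x) * y) / 16 : ℝ) : ℂ) * I := by
      push_cast
      linear_combination (-(y:ℂ) ^ 2 / 16) * Complex.I_sq
    rw [e]
    simp only [Complex.add_re, Complex.add_im, Complex.ofReal_re, Complex.ofReal_im,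
      Complex.re_ofReal_mul, Complex.im_ofReal_mul, Complex.I_re, Complex.I_im, mul_zero, mul_one,
      add_zero, zero_add]
    have hy2 : y ^ 2 = 1 - x ^ 2 := hsc
    have e2 : (a - ((1 + x) ^ 2 - y ^ 2) / 16) * (a - ((1 + x) ^ 2 - y ^ 2) / 16) +
        -(2 * (1 + x) * y) / 16 * (-(2 * (1 + x) * y) / 16)
        = (a - ((1 + x) ^ 2 - y ^ 2) / 16) ^ 2 + (1 + x) ^ 2 * y ^ 2 / 64 := by ring
    rw [e2, hy2]
    ring
  have h3 : (1 / 4 - a) ^ 2 ≤ ‖(a : ℂ) - (1 + exp ((θ : ℂ) * I)) ^ 2 / 16‖ ^ 2 := by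
    rw [h2]
    have h4 : (1 + x) ^ 2 / 64 * 1 - (1 + x) * x * a / 4 + a ^ 2 - (1 / 4 - a) ^ 2
        = (1 - x) / 64 * (16 * a * (x + 2) - (x + 3)) := by ring
    have h5 : 0 ≤ (1 - x) / 64 * (16 * a * (x + 2) - (x + 3)) := by
      apply mul_nonneg (by linarith)
      nlinarith
    linarith
  exact le_of_sq_le_sq h3 (norm_nonneg _)

lemma ellr_bounds {n : ℕ} (hn : 3 ≤ n) :
    1 / 8 ≤ Real.exp (ellr n) ∧ 1 / (10 * n) ≤ 1 / 4 - Real.exp (ellr n) := by
  have hn0 : (3:ℝ) ≤ n := by exact_mod_cast hn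
  have hn1 : (0:ℝ) < n - 1 := by linarith
  have hlog2 : Real.log 2 < 0.7 := by linarith [Real.log_two_lt_d9]
  have hlog2' : 0.69 < Real.log 2 := by linarith [Real.log_two_gt_d9]
  set y : ℝ := 2 * Real.log 2 / (n - 1) with hy
  have hy0 : 0 < y := by positivity
  have hy1 : y ≤ Real.log 2 := by
    rw [hy, div_le_iff₀ hn1]
    nlinarith
  have he : Real.exp (ellr n) = 1 / 4 * Real.exp (-y) := by
    have h1 : ellr n = -(2 * Real.log 2) + -y := by
      rw [ellr, hy]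
      field_simp
      ring
    have h2 : Real.exp (-(2 * Real.log 2)) = 1 / 4 := by
      rw [Real.exp_neg, show 2 * Real.log 2 = Real.log (2 ^ 2) by
        rw [Real.log_pow]; norm_num, Real.exp_log (by norm_num)]
      norm_num
    rw [h1, Real.exp_add, h2]
  have h3 : Real.exp (-y) ≤ 1 / (1 + y) := by
    rw [Real.exp_neg, ← one_div]
    apply one_div_le_one_div_of_le (by linarith)
    linarith [Real.add_one_le_exp y]
  rw [he]
  constructor
  · have h4 : (1:ℝ) / 2 ≤ Real.exp (-y) := by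
      calc (1:ℝ) / 2 = Real.exp (-Real.log 2) := by
            rw [Real.exp_neg, Real.exp_log (by norm_num)]; norm_num
        _ ≤ _ := Real.exp_le_exp.2 (by linarith)
    linarith
  · have h4 : 1 / 4 * (1 - 1 / (1 + y)) ≤ 1 / 4 - 1 / 4 * Real.exp (-y) := by linarith
    refine le_trans ?_ h4
    have h5 : 1 - 1 / (1 + y) = y / (1 + y) := by field_simp; ring
    rw [h5]
    have h6 : y / 1.7 ≤ y / (1 + y) := by
      apply div_le_div_of_nonneg_left hy0.le (by linarith) (by linarith)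
    have h7 : 1.38 / (n:ℝ) ≤ y := by
      rw [hy, div_le_div_iff₀ (by linarith) hn1]
      nlinarith
    have h8 : (1:ℝ) / (10 * n) = 0.1 / n := by
      field_simp; norm_num
    have h9 : 1.38 / (n:ℝ) / 1.7 ≤ y / 1.7 :=
      div_le_div_of_nonneg_right h7 (by norm_num)
    have h10 : (0.1:ℝ) / n ≤ 1 / 4 * (1.38 / (n:ℝ) / 1.7) := by
      have : 1 / 4 * (1.38 / (n:ℝ) / 1.7) = (1.38 / 6.8) / n := by ring
      rw [this]
      apply div_le_div_of_nonneg_right _ (by linarith)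
      norm_num
    rw [h8]
    linarith

end Pool.Agent.KS6_23.MM
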